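import Pool.Agent.Helper62.DSH.StB

/-!
# Project DSH (MP_087a81_gt), module THJ: primitives with small covariant derivative
-/

set_option autoImplicit false

open Set Filter Topology MeasureTheory
open Helper62.LH Helper62.DSH
open scoped ContDiff ENNReal

noncomputable section

namespace Pool.Agent.Helper47.DSH

/-! ### the squared norm -/

private theorem q2_nn {n j : ℕ} (t : Tn n j) : 0 ≤ q2 t :=
  div_nonneg (Finset.sum_nonneg fun _ _ => mul_self_nonneg _) (Nat.cast_nonneg _)

private theorem q2_c {n j : ℕ} : Continuous (q2 : Tn n j → ℝ) := by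
  unfold q2 ipt
  refine Continuous.div_const ?_ _
  exact continuous_finsetSum _ fun I _ => (continuous_apply I).mul (continuous_apply I)

private theorem sq_le_q2 {n j : ℕ} (t : Tn n j) (I : Fin j → Fin n) :
    t I ^ 2 ≤ (j.factorial : ℝ) * q2 t := by
  have h0 : (0 : ℝ) < (j.factorial : ℝ) := Nat.cast_pos.2 (Nat.factorial_pos j)
  have h1 : (j.factorial : ℝ) * q2 t = ∑ I, t I * t I := by
    unfold q2 ipt
    field_simp
  rw [h1, sq]
  exact Finset.single_le_sum (f := fun I => t I * t I) (fun _ _ => mul_self_nonneg _)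
    (Finset.mem_univ I)

private theorem q2_neg {n j : ℕ} (s t : Tn n j) : q2 (s - t) = q2 (t - s) := by
  unfold q2 ipt
  congr 1
  refine Finset.sum_congr rfl fun I _ => ?_
  simp only [Pi.sub_apply]
  ring

private theorem q2_add (hNrm : TNrm) {n j : ℕ} (s t : Tn n j) :
    q2 (s + t) ≤ 2 * q2 s + 2 * q2 t := by
  have := (hNrm n j).2.2.2.1 s t 1 one_pos
  norm_num at this
  exact this

private theorem ipt_le (hNrm : TNrm) {n j : ℕ} (s t : Tn n j) :
    |ipt s t| ≤ q2 s + q2 t := by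
  have h1 := (hNrm n j).2.2.1 s t
  have h2 := Real.sq_sqrt (q2_nn s)
  have h3 := Real.sq_sqrt (q2_nn t)
  have h4 := q2_nn s
  have h5 := q2_nn t
  nlinarith [sq_nonneg (√(q2 s) - √(q2 t))]

private theorem ipt_c {n j : ℕ} : Continuous (fun p : Tn n j × Tn n j => ipt p.1 p.2) := by
  unfold ipt
  refine Continuous.div_const ?_ _
  exact continuous_finsetSum _ fun I _ =>
    ((continuous_apply I).comp continuous_fst).mul ((continuous_apply I).comp continuous_snd)

private theorem ipt_sum {n j M : ℕ} (c : Fin M → ℝ) (s : Fin M → Tn n j) (t : Tn n j) :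
    ipt (∑ i, c i • s i) t = ∑ i, c i * ipt (s i) t := by
  unfold ipt
  simp only [Finset.sum_apply, Pi.smul_apply, smul_eq_mul, Finset.sum_mul, ← mul_div_assoc,
    Finset.mul_sum, ← Finset.sum_div]
  rw [Finset.sum_comm]
  congr 1
  refine Finset.sum_congr rfl fun i _ => Finset.sum_congr rfl fun I _ => ?_
  ring

/-! ### locally square integrable tensors -/

private theorem L2t_int {n j : ℕ} {ζ : E n → Tn n j} (h : L2t ζ) {v : E n → ℝ}
    (hv : Continuous v) {K : Set (E n)} (hK : IsCompact K) :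
    IntegrableOn (fun x => q2 (ζ x) * v x) K := by
  refine IntegrableOn.mul_continuousOn ?_ hv.continuousOn hK
  have h1 : IntegrableOn (fun x => ∑ I, ζ x I ^ 2) K :=
    integrable_finsetSum _ fun I _ => (h I).2 K hK
  have h2 := h1.div_const (j.factorial : ℝ)
  refine h2.congr (Filter.Eventually.of_forall fun x => ?_)
  simp only [q2, ipt, sq]

private theorem L2t_ct {n j : ℕ} {ζ : E n → Tn n j} (h : Continuous ζ) : L2t ζ := fun I =>
  ⟨((continuous_apply I).comp h).aestronglyMeasurable, fun _ hK =>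
    ((((continuous_apply I).comp h).pow 2).continuousOn).integrableOn_compact hK⟩

private theorem L2t_sub {n j : ℕ} {ζ η : E n → Tn n j} (hζ : L2t ζ) (hη : L2t η) :
    L2t (fun x => ζ x - η x) := by
  intro I
  obtain ⟨hu, hu'⟩ := hζ I
  obtain ⟨hv, hv'⟩ := hη I
  refine ⟨hu.sub hv, fun K hK => ?_⟩
  have h1 := (hu' K hK).const_mul 2
  have h2 := (hv' K hK).const_mul 2
  refine (h1.add h2).mono' ?_ ?_
  · exact ((hu.sub hv).pow 2).restrict
  · refine Filter.Eventually.of_forall fun x => ?_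
    rw [Real.norm_eq_abs, abs_of_nonneg (sq_nonneg _)]
    simp only [Pi.add_apply, Pi.sub_apply]
    nlinarith [sq_nonneg (ζ x I + η x I)]

private theorem loc_int {n : ℕ} {w v : E n → ℝ} (hw : Continuous w) (hw0 : ∀ x, 0 < w x)
    (hv : Continuous v) {G : E n → ℝ} (hG : Integrable (fun x => G x * w x)) {K : Set (E n)}
    (hK : IsCompact K) : IntegrableOn (fun x => G x * v x) K := by
  have h1 : IntegrableOn (fun x => G x * w x * ((w x)⁻¹ * v x)) K :=
    hG.integrableOn.mul_continuousOn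
      ((hw.inv₀ fun x => (hw0 x).ne').mul hv).continuousOn hK
  refine h1.congr (Filter.Eventually.of_forall fun x => ?_)
  simp only
  have := (hw0 x).ne'
  field_simp

private theorem L2t_w {n j : ℕ} {η : E n → Tn n j} (hm : AEStronglyMeasurable η volume)
    {w : E n → ℝ} (hw : Continuous w) (hw0 : ∀ x, 0 < w x)
    (hi : Integrable (fun x => q2 (η x) * w x)) : L2t η := by
  intro I
  have hmI : AEStronglyMeasurable (fun x => η x I) volume :=
    (continuous_apply I).comp_aestronglyMeasurable hm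
  refine ⟨hmI, fun K hK => ?_⟩
  have h1 := (loc_int hw hw0 (v := fun _ => 1) continuous_const hi hK).const_mul
    (j.factorial : ℝ)
  refine h1.mono' (hmI.pow 2).restrict (Filter.Eventually.of_forall fun x => ?_)
  rw [Real.norm_eq_abs, abs_of_nonneg (sq_nonneg _), mul_one]
  exact sq_le_q2 _ _

/-- components are integrable on bounded sets -/
private theorem L2t_comp {n j : ℕ} {ζ : E n → Tn n j} (h : L2t ζ) (I : Fin j → Fin n)
    {K S : Set (E n)} (hK : IsCompact K) (hS : S ⊆ K) : IntegrableOn (fun x => ζ x I) S := by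
  obtain ⟨hu, hu'⟩ := h I
  have h1 : IntegrableOn (fun x => ζ x I) K := by
    have h2 : IntegrableOn (fun _ : E n => (1 : ℝ)) K :=
      continuous_const.continuousOn.integrableOn_compact hK
    refine ((hu' K hK).add h2).mono' hu.restrict (Filter.Eventually.of_forall fun x => ?_)
    rw [Real.norm_eq_abs]
    simp only [Pi.add_apply]
    rw [← sq_abs]
    nlinarith [sq_nonneg (|ζ x I| - 1), abs_nonneg (ζ x I)]
  exact h1.mono_set hS

/-- Cauchy-Schwarz for the mean of a component -/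
private theorem mean_sq {n j : ℕ} {ζ : E n → Tn n j} (h : L2t ζ) (I : Fin j → Fin n)
    {K S : Set (E n)} (hK : IsCompact K) (hS : S ⊆ K)
    {v : E n → ℝ} (hv : Continuous v) {a : ℝ} (hva : ∀ x ∈ K, 1 ≤ a * v x) :
    (∫ x in S, ζ x I) ^ 2 ≤
      volume.real K * ((j.factorial : ℝ) * a) * ∫ x in K, q2 (ζ x) * v x := by
  obtain ⟨hu, hu'⟩ := h I
  have hKf : volume K < ⊤ := hK.measure_lt_top
  have hSf : volume S < ⊤ := (measure_mono hS).trans_lt hKf
  have hi1 : IntegrableOn (fun x => ζ x I) S := L2t_comp h I hK hS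
  have hi2 : IntegrableOn (fun x => ζ x I ^ 2) S := (hu' K hK).mono_set hS
  have h1 : (∫ x in S, ζ x I) ^ 2 ≤ volume.real S * ∫ x in S, ζ x I ^ 2 := by
    obtain ⟨A, hA⟩ : ∃ A, A = ∫ x in S, ζ x I := ⟨_, rfl⟩
    obtain ⟨B, hB⟩ : ∃ B, B = ∫ x in S, ζ x I ^ 2 := ⟨_, rfl⟩
    have hB0 : 0 ≤ B := by
      rw [hB]
      exact integral_nonneg fun x => sq_nonneg _
    have key : ∀ s : ℝ, 0 ≤ B - 2 * s * A + s ^ 2 * volume.real S := by
      intro s
      have h2 : (0 : ℝ) ≤ ∫ x in S, (ζ x I - s) ^ 2 := integral_nonneg fun x => sq_nonneg _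
      have h3 : (∫ x in S, (ζ x I - s) ^ 2) = B - 2 * s * A + s ^ 2 * volume.real S := by
        have h4 : (fun x => (ζ x I - s) ^ 2) =
            fun x => (ζ x I ^ 2 - 2 * s * ζ x I) + s ^ 2 := by
          funext x
          ring
        have hc : IntegrableOn (fun _ : E n => s ^ 2) S :=
          (continuous_const.continuousOn.integrableOn_compact hK).mono_set hS
        have e1 : ∫ x in S, ((ζ x I ^ 2 - 2 * s * ζ x I) + s ^ 2) =
            (∫ x in S, (ζ x I ^ 2 - 2 * s * ζ x I)) + ∫ _x in S, s ^ 2 :=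
          integral_add (hi2.sub (hi1.const_mul _)) hc
        have e2 : ∫ x in S, (ζ x I ^ 2 - 2 * s * ζ x I) =
            (∫ x in S, ζ x I ^ 2) - ∫ x in S, 2 * s * ζ x I :=
          integral_sub hi2 (hi1.const_mul _)
        rw [h4, e1, e2, integral_const_mul, setIntegral_const, ← hA, ← hB, smul_eq_mul]
        ring
      rw [h3] at h2
      exact h2
    rw [← hA, ← hB]
    rcases (measureReal_nonneg (μ := volume) (s := S)).eq_or_lt with h0 | h0
    · rw [← h0, zero_mul]
      have hA0 : A = 0 := by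
        rw [hA]
        have h5 : volume S = 0 := by
          rw [Measure.real, eq_comm, ENNReal.toReal_eq_zero_iff] at h0
          rcases h0 with h0 | h0
          · exact h0
          · exact absurd h0 hSf.ne
        rw [Measure.restrict_eq_zero.2 h5, integral_zero_measure]
      rw [hA0]
      norm_num
    · have h5 := key (A / volume.real S)
      have h6 : B - 2 * (A / volume.real S) * A + (A / volume.real S) ^ 2 * volume.real S =
          B - A ^ 2 / volume.real S := by
        field_simp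
        ring
      rw [h6, sub_nonneg, div_le_iff₀ h0] at h5
      linarith
  have h2 : (∫ x in S, ζ x I ^ 2) ≤ ∫ x in K, ζ x I ^ 2 :=
    setIntegral_mono_set (hu' K hK) (Filter.Eventually.of_forall fun x => sq_nonneg _)
      (Filter.Eventually.of_forall hS)
  have h3 : (∫ x in K, ζ x I ^ 2) ≤ ((j.factorial : ℝ) * a) * ∫ x in K, q2 (ζ x) * v x := by
    rw [← integral_const_mul]
    refine setIntegral_mono_on (hu' K hK) ((L2t_int h hv hK).const_mul _) hK.measurableSet
      fun x hx => ?_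
    have h4 := sq_le_q2 (ζ x) I
    have h5 := hva x hx
    have h6 : 0 ≤ (j.factorial : ℝ) * q2 (ζ x) := mul_nonneg (Nat.cast_nonneg _) (q2_nn _)
    calc ζ x I ^ 2 ≤ (j.factorial : ℝ) * q2 (ζ x) * 1 := by rw [mul_one]; exact h4
      _ ≤ (j.factorial : ℝ) * q2 (ζ x) * (a * v x) := mul_le_mul_of_nonneg_left h5 h6
      _ = (j.factorial : ℝ) * a * (q2 (ζ x) * v x) := by ring
  have h4 : volume.real S ≤ volume.real K := measureReal_mono hS hKf.ne
  calc (∫ x in S, ζ x I) ^ 2 ≤ volume.real S * ∫ x in S, ζ x I ^ 2 := h1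
    _ ≤ volume.real K * ∫ x in K, ζ x I ^ 2 :=
        mul_le_mul h4 h2 (integral_nonneg fun x => sq_nonneg _) measureReal_nonneg
    _ ≤ volume.real K * (((j.factorial : ℝ) * a) * ∫ x in K, q2 (ζ x) * v x) :=
        mul_le_mul_of_nonneg_left h3 measureReal_nonneg
    _ = _ := by ring

/-! ### the function `b` -/

private theorem dg_self {n : ℕ} (g : E n → Bl n) (x : E n) : dg g x x ≤ 0 := by
  unfold dg
  apply csInf_le
  · refine ⟨0, ?_⟩
    rintro l ⟨c, -, -, -, rfl⟩
    apply intervalIntegral.integral_nonneg zero_le_one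
    intro t _
    exact Real.sqrt_nonneg _
  · refine ⟨fun _ => x, contDiff_const, rfl, rfl, ?_⟩
    unfold len nr
    simp

private theorem b_ct (hDlc : StDlc) {n : ℕ} {g : E n → Bl n} (hg : IsMet g) {b : E n → ℝ}
    (hb : ∀ x y, |b x - b y| ≤ dg g x y) : Continuous b := by
  rw [continuous_iff_continuousAt]
  intro x
  have h3 := (hDlc n g hg).2.2
  have h4 : Tendsto (fun y => dg g y x) (𝓝 x) (𝓝 (dg g x x)) :=
    (h3.comp (continuous_id.prodMk continuous_const)).tendsto x
  have h5 : dg g x x = 0 := by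
    apply le_antisymm (dg_self g x)
    have := hb x x
    rw [sub_self, abs_zero] at this
    exact this
  rw [h5] at h4
  rw [ContinuousAt, tendsto_iff_dist_tendsto_zero]
  exact squeeze_zero (fun y => dist_nonneg) (fun y => by rw [Real.dist_eq]; exact hb y x) h4

/-! ### alternating tensors and exact forms -/

private def Asub (n j : ℕ) : Submodule ℝ (Tn n j) where
  carrier := {t | Altn t}
  add_mem' := by
    intro s t hs ht I σ
    simp only [Pi.add_apply]
    rw [hs I σ, ht I σ]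
    ring
  zero_mem' := by
    intro I σ
    simp
  smul_mem' := by
    intro c t ht I σ
    simp only [Pi.smul_apply, smul_eq_mul]
    rw [ht I σ]
    ring

private theorem mem_A {n j : ℕ} {t : Tn n j} : t ∈ Asub n j ↔ Altn t := Iff.rfl

section frame

variable {n j : ℕ} {g : E n → Bl n} {Γ : E n → Bm n} {F : Fin n → E n → E n}
  {G : E n → Fin n → Fin n → Fin n → ℝ}

private theorem dF_lin (hDer : TDer) (hF : Frm g Γ F G) {M : ℕ} (c : Fin M → ℝ)
    (u : Fin M → E n → Tn n j) (hu : ∀ i, ContDiff ℝ ∞ (u i)) (x : E n) :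
    dF F G (fun y => ∑ i, c i • u i y) x = ∑ i, c i • dF F G (u i) x :=
  ((hDer n j g Γ F G hF).2.2.2.2.2.1 M c u hu x).2

private theorem dF_add (hDer : TDer) (hF : Frm g Γ F G) {u v : E n → Tn n j}
    (hu : ContDiff ℝ ∞ u) (hv : ContDiff ℝ ∞ v) (x : E n) :
    dF F G (fun y => u y + v y) x = dF F G u x + dF F G v x := by
  have h := dF_lin hDer hF ![1, 1] ![u, v] (by
    intro i
    fin_cases i
    · exact hu
    · exact hv) x
  simpa [Fin.sum_univ_two] using h

private theorem dF_smul (hDer : TDer) (hF : Frm g Γ F G) {u : E n → Tn n j}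
    (hu : ContDiff ℝ ∞ u) (c : ℝ) (x : E n) :
    dF F G (fun y => c • u y) x = c • dF F G u x := by
  have h := dF_lin hDer hF ![c] ![u] (by
    intro i
    fin_cases i
    exact hu) x
  simpa using h

private theorem dF_zero (hDer : TDer) (hF : Frm g Γ F G) (x : E n) :
    dF F G (fun _ : E n => (0 : Tn n j)) x = 0 := by
  have h := dF_lin hDer hF (j := j) (M := 0) Fin.elim0 Fin.elim0 (fun i => i.elim0) x
  simpa using h

private theorem al_zero : Al (fun _ : E n => (0 : Tn n j)) := by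
  intro x I σ
  simp

private theorem al_add {u v : E n → Tn n j} (hu : Al u) (hv : Al v) :
    Al (fun y => u y + v y) := fun x => (Asub n j).add_mem (hu x) (hv x)

private theorem al_smul {u : E n → Tn n j} (hu : Al u) (c : ℝ) :
    Al (fun y => c • u y) := fun x => (Asub n j).smul_mem c (hu x)

private theorem al_sum {M : ℕ} {u : Fin M → E n → Tn n j} (hu : ∀ i, Al (u i))
    (c : Fin M → ℝ) : Al (fun y => ∑ i, c i • u i y) := fun x =>
  (Asub n j).sum_mem fun i _ => (Asub n j).smul_mem _ (hu i x)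

/-- the space of exact forms with a primitive of compact support -/
private def Ssub (hDer : TDer) (hF : Frm g Γ F G) : Submodule ℝ (E n → Tn n (j + 1)) where
  carrier := {ζ | ∃ β : E n → Tn n j, ContDiff ℝ ∞ β ∧ Al β ∧ HasCompactSupport β ∧
    ζ = dF F G β}
  add_mem' := by
    rintro _ _ ⟨β, hβ, hβa, hβc, rfl⟩ ⟨β', hβ', hβ'a, hβ'c, rfl⟩
    refine ⟨fun y => β y + β' y, hβ.add hβ', al_add hβa hβ'a, hβc.add hβ'c, ?_⟩
    funext x
    exact (dF_add hDer hF hβ hβ' x).symm
  zero_mem' := by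
    refine ⟨fun _ => 0, contDiff_const, al_zero, HasCompactSupport.zero, ?_⟩
    funext x
    exact (dF_zero hDer hF x).symm
  smul_mem' := by
    rintro c _ ⟨β, hβ, hβa, hβc, rfl⟩
    refine ⟨fun y => c • β y, hβ.const_smul c, al_smul hβa c, 
      hβc.comp_left (g := fun t => c • t) (smul_zero c), ?_⟩
    funext x
    exact (dF_smul hDer hF hβ c x).symm

private theorem mem_S (hDer : TDer) (hF : Frm g Γ F G) {ζ : E n → Tn n (j + 1)} :
    ζ ∈ Ssub hDer hF ↔ ∃ β : E n → Tn n j, ContDiff ℝ ∞ β ∧ Al β ∧ HasCompactSupport β ∧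
      ζ = dF F G β := Iff.rfl

private theorem dF_ct (hDer : TDer) (hF : Frm g Γ F G) {u : E n → Tn n j}
    (hu : ContDiff ℝ ∞ u) : ContDiff ℝ ∞ (dF F G u) := ((hDer n j g Γ F G hF).1 u hu).2

private theorem dF_al (hDer : TDer) (hF : Frm g Γ F G) {u : E n → Tn n j}
    (hu : ContDiff ℝ ∞ u) (ha : Al u) : Al (dF F G u) :=
  ((hDer n j g Γ F G hF).2.2.1 u hu ha).2

private theorem dF_cs (hDer : TDer) (hF : Frm g Γ F G) {u : E n → Tn n j}
    (hc : HasCompactSupport u) : HasCompactSupport (dF F G u) :=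
  HasCompactSupport.intro hc fun x hx => ((hDer n j g Γ F G hF).2.2.2.2.2.2.2 u x hx).2.2

end frame

/-! ### the projections -/

private theorem proj (hDer : TDer) (hHpj : THpj) {n m : ℕ} {g : E n → Bl n} {Γ : E n → Bm n}
    {F : Fin n → E n → E n} {G : E n → Fin n → Fin n → Fin n → ℝ} (hF : Frm g Γ F G)
    {w : E n → ℝ} (hwc : Continuous w) (hw0 : ∀ x, 0 < w x) {u : E n → Tn n (m + 1)}
    (hu : ContDiff ℝ ∞ u) (hua : Al u) (hui : Integrable (fun x => q2 (u x) * w x)) :
    ∃ η : E n → Tn n (m + 1), Al η ∧ AEStronglyMeasurable η volume ∧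
      Integrable (fun x => q2 (η x) * w x) ∧
      ∫ x, q2 (η x) * w x ≤ ∫ x, q2 (u x) * w x ∧
      (∀ β : E n → Tn n m, ContDiff ℝ ∞ β → Al β → HasCompactSupport β →
        ∫ x, ipt (η x) (dF F G β x) * w x = 0) ∧
      ∀ κ > 0, ∃ β : E n → Tn n m, ContDiff ℝ ∞ β ∧ Al β ∧ HasCompactSupport β ∧
        Integrable (fun x => q2 (u x + dF F G β x - η x) * w x) ∧
        ∫ x, q2 (u x + dF F G β x - η x) * w x ≤ κ := by
  obtain ⟨η, h1, h2, h3, h4, h5, h6⟩ := hHpj n (m + 1) w hwc hw0 (Asub n (m + 1))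
    (Ssub (n := n) (j := m) hDer hF) (by
      rintro β hβ
      obtain ⟨β', hβ', hβ'a, hβ'c, rfl⟩ := (mem_S hDer hF).1 hβ
      exact ⟨(dF_ct hDer hF hβ').continuous, dF_cs hDer hF hβ'c,
        fun x => dF_al hDer hF hβ' hβ'a x⟩) u hu.continuous (fun x => hua x) hui
  refine ⟨η, h1, h2, h3, h4, ?_, ?_⟩
  · intro β hβ hβa hβc
    exact h5 _ ((mem_S hDer hF).2 ⟨β, hβ, hβa, hβc, rfl⟩)
  · intro κ hκ
    obtain ⟨ζ, hζ, h7, h8⟩ := h6 κ hκ
    obtain ⟨β, hβ, hβa, hβc, rfl⟩ := (mem_S hDer hF).1 hζ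
    exact ⟨β, hβ, hβa, hβc, h7, h8⟩

/-- linear combinations of the projections -/
private theorem comb (hNrm : TNrm) (hDer : TDer) (hDdz : TDdz) {n m : ℕ} {g : E n → Bl n}
    {Γ : E n → Bm n} {F : Fin n → E n → E n} {G : E n → Fin n → Fin n → Fin n → ℝ}
    (hg : IsMet g) (hΓ : IsChr g Γ) (hF : Frm g Γ F G) {w v : E n → ℝ} (hwc : Continuous w)
    (hw0 : ∀ x, 0 < w x) (hvc : Continuous v) (hv0 : ∀ x, 0 ≤ v x)
    {M : ℕ} {P : Fin M → E n → Tn n (m + 2)}
    {u : Fin M → E n → Tn n (m + 1)} (hu : ∀ i, ContDiff ℝ ∞ (u i)) (hua : ∀ i, Al (u i))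
    (hud : ∀ i x, dF F G (u i) x = P i x)
    {η : Fin M → E n → Tn n (m + 1)} (h1 : ∀ i, Al (η i))
    (h2 : ∀ i, AEStronglyMeasurable (η i) volume)
    (h3 : ∀ i, Integrable (fun x => q2 (η i x) * w x)) {T : ℝ}
    (h4 : ∑ i, ∫ x, q2 (η i x) * w x ≤ T)
    (h5 : ∀ i, ∀ β : E n → Tn n m, ContDiff ℝ ∞ β → Al β → HasCompactSupport β →
        ∫ x, ipt (η i x) (dF F G β x) * w x = 0)
    (h6 : ∀ i, ∀ κ > 0, ∃ β : E n → Tn n m, ContDiff ℝ ∞ β ∧ Al β ∧ HasCompactSupport β ∧
        Integrable (fun x => q2 (u i x + dF F G β x - η i x) * w x) ∧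
        ∫ x, q2 (u i x + dF F G β x - η i x) * w x ≤ κ)
    (c : Fin M → ℝ) (hc : ∑ i, c i ^ 2 = 1) :
    Al (fun x => ∑ i, c i • η i x) ∧
    AEStronglyMeasurable (fun x => ∑ i, c i • η i x) volume ∧
    Integrable (fun x => q2 (∑ i, c i • η i x) * w x) ∧
    ∫ x, q2 (∑ i, c i • η i x) * w x ≤ T ∧
    (∀ β : E n → Tn n m, ContDiff ℝ ∞ β → Al β → HasCompactSupport β →
        ∫ x, ipt (∑ i, c i • η i x) (dF F G β x) * w x = 0) ∧
    ∀ K, IsCompact K → ∀ κ > 0, ∃ U : E n → Tn n (m + 1), ContDiff ℝ ∞ U ∧ Al U ∧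
      (∀ x, dF F G U x = ∑ i, c i • P i x) ∧
      ∫ x in K, q2 (U x - ∑ i, c i • η i x) * v x ≤ κ := by
  have hq5 : ∀ t : Fin M → Tn n (m + 1), q2 (∑ i, c i • t i) ≤ ∑ i, q2 (t i) := by
    intro t
    have := (hNrm n (m + 1)).2.2.2.2.1 M c t
    rw [hc, one_mul] at this
    exact this
  have hm : AEStronglyMeasurable (fun x => ∑ i, c i • η i x) volume :=
    Finset.aestronglyMeasurable_fun_sum _ fun i _ => (h2 i).const_smul (c i)
  have hsum : Integrable (fun x => ∑ i, q2 (η i x) * w x) :=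
    integrable_finsetSum _ fun i _ => h3 i
  have hle : ∀ x, q2 (∑ i, c i • η i x) * w x ≤ ∑ i, q2 (η i x) * w x := by
    intro x
    rw [← Finset.sum_mul]
    exact mul_le_mul_of_nonneg_right (hq5 _) (hw0 x).le
  have hi : Integrable (fun x => q2 (∑ i, c i • η i x) * w x) := by
    refine hsum.mono' ?_ (Filter.Eventually.of_forall fun x => ?_)
    · exact (q2_c.comp_aestronglyMeasurable hm).mul hwc.aestronglyMeasurable
    · rw [Real.norm_eq_abs, abs_of_nonneg (mul_nonneg (q2_nn _) (hw0 x).le)]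
      exact hle x
  refine ⟨al_sum h1 c, hm, hi, ?_, ?_, ?_⟩
  · refine (integral_mono hi hsum hle).trans ?_
    rw [integral_finsetSum _ fun i _ => h3 i]
    exact h4
  · intro β hβ hβa hβc
    have hdc : Continuous (dF F G β) := (dF_ct hDer hF hβ).continuous
    have hds : HasCompactSupport (dF F G β) := dF_cs hDer hF hβc
    have hdi : Integrable (fun x => q2 (dF F G β x) * w x) := by
      apply Continuous.integrable_of_hasCompactSupport ((q2_c.comp hdc).mul hwc)
      apply HasCompactSupport.mul_right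
      refine hds.comp_left (g := q2) ?_
      simp [q2, ipt]
    have h7 : ∀ i, Integrable (fun x => ipt (η i x) (dF F G β x) * w x) := by
      intro i
      refine ((h3 i).add hdi).mono' ?_ (Filter.Eventually.of_forall fun x => ?_)
      · exact (ipt_c.comp_aestronglyMeasurable
          ((h2 i).prodMk hdc.aestronglyMeasurable)).mul hwc.aestronglyMeasurable
      · rw [Real.norm_eq_abs, abs_mul, abs_of_pos (hw0 x)]
        simp only [Pi.add_apply]
        rw [← add_mul]
        exact mul_le_mul_of_nonneg_right (ipt_le hNrm _ _) (hw0 x).le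
    have h8 : ∀ x, ipt (∑ i, c i • η i x) (dF F G β x) * w x =
        ∑ i, c i * (ipt (η i x) (dF F G β x) * w x) := by
      intro x
      rw [ipt_sum, Finset.sum_mul]
      exact Finset.sum_congr rfl fun i _ => by ring
    simp only [h8]
    rw [integral_finsetSum _ fun i _ => (h7 i).const_mul (c i)]
    apply Finset.sum_eq_zero
    intro i _
    rw [integral_const_mul, h5 i β hβ hβa hβc, mul_zero]
  · intro K hK κ hκ
    obtain ⟨B, hB0, hB⟩ : ∃ B : ℝ, 0 < B ∧ ∀ x ∈ K, v x ≤ B * w x := by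
      obtain ⟨B, hB⟩ := hK.bddAbove_image
        ((hvc.div hwc fun x => (hw0 x).ne').continuousOn (s := K))
      refine ⟨max B 1, lt_of_lt_of_le one_pos (le_max_right _ _), fun x hx => ?_⟩
      rw [← div_le_iff₀ (hw0 x)]
      exact (hB ⟨x, hx, rfl⟩).trans (le_max_left _ _)
    choose β hβ hβa hβc hβi hβle using fun i => h6 i (κ / (B * (M + 1))) (by positivity)
    refine ⟨fun x => ∑ i, c i • (u i x + dF F G (β i) x), ?_, ?_, ?_, ?_⟩
    · exact ContDiff.sum fun i _ => ((hu i).add (dF_ct hDer hF (hβ i))).const_smul (c i)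
    · exact al_sum (fun i => al_add (hua i) (dF_al hDer hF (hβ i) (hβa i))) c
    · intro x
      have := dF_lin hDer hF c (fun i y => u i y + dF F G (β i) y)
        (fun i => (hu i).add (dF_ct hDer hF (hβ i))) x
      rw [this]
      refine Finset.sum_congr rfl fun i _ => ?_
      rw [dF_add hDer hF (hu i) (dF_ct hDer hF (hβ i)), hud i,
        hDdz n m g Γ F G hg hΓ hF (β i) (hβ i) (hβa i) x, add_zero]
    · have e0 : ∀ x, (∑ i, c i • (u i x + dF F G (β i) x)) - ∑ i, c i • η i x =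
          ∑ i, c i • (u i x + dF F G (β i) x - η i x) := by
        intro x
        rw [← Finset.sum_sub_distrib]
        exact Finset.sum_congr rfl fun i _ => (smul_sub _ _ _).symm
      simp only [e0]
      have e1 : ∀ i, IntegrableOn (fun x => q2 (u i x + dF F G (β i) x - η i x) * v x) K :=
        fun i => loc_int hwc hw0 hvc (hβi i) hK
      have e2 : IntegrableOn (fun x => ∑ i, q2 (u i x + dF F G (β i) x - η i x) * v x) K :=
        integrable_finsetSum _ fun i _ => e1 i
      have e3 : ∀ i, ∫ x in K, q2 (u i x + dF F G (β i) x - η i x) * v x ≤ κ / (M + 1) := by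
        intro i
        calc ∫ x in K, q2 (u i x + dF F G (β i) x - η i x) * v x
            ≤ ∫ x in K, B * (q2 (u i x + dF F G (β i) x - η i x) * w x) := by
              refine setIntegral_mono_on (e1 i) ((hβi i).integrableOn.const_mul B)
                hK.measurableSet fun x hx => ?_
              calc q2 (u i x + dF F G (β i) x - η i x) * v x
                  ≤ q2 (u i x + dF F G (β i) x - η i x) * (B * w x) :=
                    mul_le_mul_of_nonneg_left (hB x hx) (q2_nn _)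
                _ = _ := by ring
          _ = B * ∫ x in K, q2 (u i x + dF F G (β i) x - η i x) * w x :=
              integral_const_mul _ _
          _ ≤ B * ∫ x, q2 (u i x + dF F G (β i) x - η i x) * w x := by
              refine mul_le_mul_of_nonneg_left ?_ hB0.le
              exact setIntegral_le_integral (hβi i)
                (Filter.Eventually.of_forall fun x => mul_nonneg (q2_nn _) (hw0 x).le)
          _ ≤ B * (κ / (B * (M + 1))) := mul_le_mul_of_nonneg_left (hβle i) hB0.le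
          _ = κ / (M + 1) := by
              field_simp
      calc ∫ x in K, q2 (∑ i, c i • (u i x + dF F G (β i) x - η i x)) * v x
          ≤ ∫ x in K, ∑ i, q2 (u i x + dF F G (β i) x - η i x) * v x := by
            refine integral_mono_of_nonneg
              (Filter.Eventually.of_forall fun x => mul_nonneg (q2_nn _) (hv0 x)) e2
              (Filter.Eventually.of_forall fun x => ?_)
            simp only
            rw [← Finset.sum_mul]
            exact mul_le_mul_of_nonneg_right (hq5 _) (hv0 x)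
        _ = ∑ i, ∫ x in K, q2 (u i x + dF F G (β i) x - η i x) * v x :=
            integral_finsetSum _ fun i _ => e1 i
        _ ≤ ∑ _i : Fin M, κ / (M + 1) := Finset.sum_le_sum fun i _ => e3 i
        _ = M * (κ / (M + 1)) := by
            rw [Finset.sum_const, Finset.card_univ, Fintype.card_fin, nsmul_eq_mul]
        _ ≤ κ := by
            rw [mul_div_assoc', div_le_iff₀ (by positivity)]
            nlinarith

/-- THJ. -/
theorem hThj (hDlc : StDlc) (hWt : StWt) (hCut : StCut) (hDlv : StDlv) (hNrm : TNrm)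
    (hDer : TDer) (hBoj : TBoj) (hHpj : THpj) (hFrj : TFrj) (hLmj : TLmj) (hCuf : TCuf)
    (hDdz : TDdz) : TThj := by
  intro n m g Γ F G hg hΓ hF p b κ₀ r0 hBus K0 hK0 hW
  obtain ⟨Λ, hΛ0, hBoc⟩ := hBoj n m g Γ F G hg hΓ hF K0 hK0 hW
  obtain ⟨Q, hQm, hQb, hK0Q, hQ⟩ := hCuf n (m + 1) g Γ F G hg hΓ hF K0 hK0
  obtain ⟨N, S, I, C, hN0, hSm, hSQ, hC0, hCu⟩ := hQ (1 / (4 * (Λ + 1))) (by positivity)
  obtain ⟨hvolc', hvol0, -⟩ := hDlv n g Γ hg hΓ
  have hvolc : Continuous (vol g) := hvolc'.continuous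
  have hbc : Continuous b := b_ct hDlc hg hBus.lip
  have hQc : IsCompact (closure Q) := hQb.isCompact_closure
  obtain ⟨R0, hR0⟩ : ∃ R0, ∀ x ∈ closure Q, b x ≤ R0 := by
    obtain ⟨R0, hR0⟩ := hQc.bddAbove_image hbc.continuousOn
    exact ⟨R0, fun x hx => hR0 ⟨x, hx, rfl⟩⟩
  refine ⟨N, R0, hN0, ?_⟩
  intro R hR M P hP
  choose u hus hual hud using fun i => (hP i).prim
  have hhc : Continuous (fun x => ∑ i, q2 (u i x)) :=
    continuous_finsetSum _ fun i _ => q2_c.comp (hus i).continuous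
  obtain ⟨T, hT⟩ := hWt n g Γ hg hΓ p b κ₀ r0 hBus R _ hhc
    (fun x => Finset.sum_nonneg fun i _ => q2_nn (u i x))
  obtain ⟨T', hT'T, hT'0⟩ : ∃ T' : ℝ, T ≤ T' ∧ 0 ≤ T' := ⟨max T 0, le_max_left _ _, le_max_right _ _⟩
  obtain ⟨ε, hε0, hεT⟩ : ∃ ε : ℝ, 0 < ε ∧ (m + 1) * ε * T' ≤ 1 := by
    refine ⟨1 / ((m + 1) * (T' + 1)), by positivity, ?_⟩
    have h0 : ((m : ℝ) + 1) * (1 / ((m + 1) * (T' + 1))) * T' = T' / (T' + 1) := by
      field_simp
    rw [h0, div_le_one (by linarith)]
    linarith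
  obtain ⟨f, hfs, hf0, hfR, hfH, hfi, hfT⟩ := hT ε hε0
  have hwc : Continuous (wt g f) := (Real.continuous_exp.comp hfs.continuous.neg).mul hvolc
  have hw0 : ∀ x, 0 < wt g f x := fun x => mul_pos (Real.exp_pos _) (hvol0 x)
  have hwv : ∀ x, wt g f x ≤ vol g x := by
    intro x
    have h1 : Real.exp (-f x) ≤ 1 := by
      rw [Real.exp_le_one_iff]
      linarith [hf0 x]
    calc wt g f x ≤ 1 * vol g x := mul_le_mul_of_nonneg_right h1 (hvol0 x).le
      _ = vol g x := one_mul _
  have hwR : ∀ x, b x ≤ R → wt g f x = vol g x := by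
    intro x hx
    unfold wt
    rw [hfR x hx]
    simp
  have hfi' : Integrable (fun x => (∑ i, q2 (u i x)) * wt g f x) := hfi
  have hfT' : ∫ x, (∑ i, q2 (u i x)) * wt g f x ≤ T := hfT
  have hui : ∀ i, Integrable (fun x => q2 (u i x) * wt g f x) := by
    intro i
    refine hfi'.mono' ?_ (Filter.Eventually.of_forall fun x => ?_)
    · exact ((q2_c.comp (hus i).continuous).mul hwc).aestronglyMeasurable
    · rw [Real.norm_eq_abs, abs_of_nonneg (mul_nonneg (q2_nn _) (hw0 x).le)]
      refine mul_le_mul_of_nonneg_right ?_ (hw0 x).le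
      exact Finset.single_le_sum (f := fun i => q2 (u i x)) (fun i _ => q2_nn _)
        (Finset.mem_univ i)
  choose η h1 h2 h3 h4 h5 h6 using
    fun i => proj hDer hHpj hF hwc hw0 (hus i) (hual i) (hui i)
  have h4' : ∑ i, ∫ x, q2 (η i x) * wt g f x ≤ T' := by
    calc ∑ i, ∫ x, q2 (η i x) * wt g f x ≤ ∑ i, ∫ x, q2 (u i x) * wt g f x :=
          Finset.sum_le_sum fun i _ => h4 i
      _ = ∫ x, ∑ i, q2 (u i x) * wt g f x := (integral_finsetSum _ fun i _ => hui i).symm
      _ = ∫ x, (∑ i, q2 (u i x)) * wt g f x := by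
          simp only [Finset.sum_mul]
      _ ≤ T := hfT'
      _ ≤ T' := hT'T
  have hηL : ∀ i, L2t (η i) := fun i => L2t_w (h2 i) hwc hw0 (h3 i)
  refine ⟨Matrix.mulVecLin (Matrix.of fun (k : Fin N) (i : Fin M) => ∫ x in S k, η i x (I k)), ?_⟩
  intro c hc hLc κ hκ
  obtain ⟨hEa, hEm, hEi, hET, hEo, hEk⟩ := comb hNrm hDer hDdz hg hΓ hF hwc hw0 hvolc
    (fun x => (hvol0 x).le) hus hual hud h1 h2 h3 h4' h5 h6 c hc
  have hmean : ∀ k, ∫ x in S k, (∑ i, c i • η i x) (I k) = 0 := by
    intro k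
    have h7 : ∑ i, (∫ x in S k, η i x (I k)) * c i = 0 := congrFun hLc k
    have h8 : ∀ x, (∑ i, c i • η i x) (I k) = ∑ i, c i * η i x (I k) := by
      intro x
      simp only [Finset.sum_apply, Pi.smul_apply, smul_eq_mul]
    simp only [h8]
    rw [integral_finsetSum _ fun i _ =>
      (L2t_comp (hηL i) (I k) hQc ((hSQ k).trans subset_closure)).const_mul (c i)]
    rw [← h7]
    refine Finset.sum_congr rfl fun i _ => ?_
    rw [integral_const_mul, mul_comm]
  obtain ⟨Et, hE⟩ : ∃ Et : E n → Tn n (m + 1), ∀ x, Et x = ∑ i, c i • η i x :=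
    ⟨_, fun _ => rfl⟩
  obtain ⟨Pc, hPcd⟩ : ∃ Pc : E n → Tn n (m + 2), ∀ x, Pc x = ∑ i, c i • P i x :=
    ⟨_, fun _ => rfl⟩
  simp only [← hE] at hEa hEm hEi hET hEo hEk hmean
  simp only [← hPcd] at hEk ⊢
  have hPcc : Continuous Pc := by
    have : Pc = fun x => ∑ i, c i • P i x := funext hPcd
    rw [this]
    exact continuous_finsetSum _ fun i _ => (hP i).smooth.continuous.const_smul (c i)
  have hEL : L2t Et := L2t_w hEm hwc hw0 hEi
  have hAp : ApJ g F G f Pc Et := by
    refine hFrj n m g Γ F G hg hΓ hF f hfs Pc Et hPcc hEa hEL (fun K hK κ hκ => ?_) hEo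
    obtain ⟨U, hU, -, hUd, hUi⟩ := hEk K hK κ hκ
    exact ⟨U, hU, hUd, hUi⟩
  have hPv : Integrable (fun x => q2 (Pc x) * vol g x) := by
    have hsum : Integrable (fun x => ∑ i, q2 (P i x) * vol g x) :=
      integrable_finsetSum _ fun i _ => (hP i).int
    refine hsum.mono' ((q2_c.comp hPcc).mul hvolc).aestronglyMeasurable
      (Filter.Eventually.of_forall fun x => ?_)
    rw [Real.norm_eq_abs, abs_of_nonneg (mul_nonneg (q2_nn _) (hvol0 x).le), ← Finset.sum_mul]
    refine mul_le_mul_of_nonneg_right ?_ (hvol0 x).le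
    have := (hNrm n (m + 2)).2.2.2.2.1 M c (fun i => P i x)
    rw [hc, one_mul, ← hPcd] at this
    exact this
  have hPw : Integrable (fun x => q2 (Pc x) * wt g f x) := by
    refine hPv.mono' ((q2_c.comp hPcc).mul hwc).aestronglyMeasurable
      (Filter.Eventually.of_forall fun x => ?_)
    rw [Real.norm_eq_abs, abs_of_nonneg (mul_nonneg (q2_nn _) (hw0 x).le)]
    exact mul_le_mul_of_nonneg_left (hwv x) (q2_nn _)
  have hK : IsCompact {x | b x ≤ R} := hBus.prop R
  have hQK : closure Q ⊆ {x | b x ≤ R} := fun x hx => (hR0 x hx).trans hR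
  obtain ⟨a, ha1, ha⟩ : ∃ a : ℝ, 0 < a ∧ ∀ x ∈ closure Q, 1 ≤ a * vol g x := by
    obtain ⟨B, hB⟩ := hQc.bddAbove_image
      ((hvolc.inv₀ fun x => (hvol0 x).ne').continuousOn (s := closure Q))
    refine ⟨max B 1, lt_of_lt_of_le one_pos (le_max_right _ _), fun x hx => ?_⟩
    have h7 : (vol g x)⁻¹ ≤ max B 1 := (hB ⟨x, hx, rfl⟩).trans (le_max_left _ _)
    rwa [inv_le_iff_one_le_mul₀ (hvol0 x)] at h7
  obtain ⟨D, hD, hD0⟩ : ∃ D : ℝ, D = volume.real (closure Q) * (((m + 1).factorial : ℝ) * a) ∧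
      0 ≤ D := ⟨_, rfl, by positivity⟩
  obtain ⟨Z, hZ, hZ0⟩ : ∃ Z : ℝ, Z = 2 * Λ * C * N * D + 2 * Λ + 1 ∧ 0 < Z :=
    ⟨_, rfl, by positivity⟩
  obtain ⟨κ', hκ'0, hκ'1, hκ'2⟩ : ∃ κ' : ℝ, 0 < κ' ∧ κ' ≤ κ / 4 ∧ Z * κ' ≤ 1 / 2 := by
    refine ⟨min (κ / 4) (1 / (2 * Z)), lt_min (by positivity) (by positivity),
      min_le_left _ _, ?_⟩
    calc Z * min (κ / 4) (1 / (2 * Z)) ≤ Z * (1 / (2 * Z)) :=
          mul_le_mul_of_nonneg_left (min_le_right _ _) hZ0.le
      _ = 1 / 2 := by field_simp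
  obtain ⟨θ', hθs, hθa, hθ1, hθ2⟩ := hLmj n m g Γ F G hg hΓ hF
    (hCut n g Γ hg hΓ p b κ₀ r0 hBus).1 K0 Λ hK0 hΛ0 hBoc f ε hfs hf0 hε0.le hfH Pc Et hPcc
    hEL hAp hPw hEi _ hK κ' hκ'0
  obtain ⟨θ'', hθ''s, hθ''a, hθ''d, hθ''1⟩ := hEk _ hK (κ / 4) (by positivity)
  refine ⟨θ', θ'', hθs, hθ''s, hθa, hθ''a, hθ''d, ?_, ?_⟩
  · have hi1 : IntegrableOn (fun x => q2 (θ' x - Et x) * vol g x) {x | b x ≤ R} :=
      L2t_int (L2t_sub (L2t_ct hθs.continuous) hEL) hvolc hK
    have hi2 : IntegrableOn (fun x => q2 (θ'' x - Et x) * vol g x) {x | b x ≤ R} :=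
      L2t_int (L2t_sub (L2t_ct hθ''s.continuous) hEL) hvolc hK
    have hi3 : IntegrableOn (fun x => q2 (θ' x - θ'' x) * vol g x) {x | b x ≤ R} :=
      L2t_int (L2t_sub (L2t_ct hθs.continuous) (L2t_ct hθ''s.continuous)) hvolc hK
    calc ∫ x in {x | b x ≤ R}, q2 (θ' x - θ'' x) * vol g x
        ≤ ∫ x in {x | b x ≤ R}, (2 * (q2 (θ' x - Et x) * vol g x)
          + 2 * (q2 (θ'' x - Et x) * vol g x)) := by
          refine setIntegral_mono_on hi3 ((hi1.const_mul 2).add (hi2.const_mul 2))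
            hK.measurableSet fun x _ => ?_
          have h7 := q2_add hNrm (θ' x - Et x) (Et x - θ'' x)
          rw [sub_add_sub_cancel, q2_neg (Et x) (θ'' x)] at h7
          calc q2 (θ' x - θ'' x) * vol g x
              ≤ (2 * q2 (θ' x - Et x) + 2 * q2 (θ'' x - Et x)) * vol g x :=
                mul_le_mul_of_nonneg_right h7 (hvol0 x).le
            _ = _ := by ring
      _ = 2 * (∫ x in {x | b x ≤ R}, q2 (θ' x - Et x) * vol g x)
          + 2 * ∫ x in {x | b x ≤ R}, q2 (θ'' x - Et x) * vol g x := by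
          rw [integral_add (hi1.const_mul 2) (hi2.const_mul 2), integral_const_mul,
            integral_const_mul]
      _ ≤ κ := by linarith
  · have hNc : Continuous (fun x => NF F G θ' x) := by
      unfold NF
      exact continuous_finsetSum _ fun a _ =>
        q2_c.comp (((hDer n (m + 1) g Γ F G hF).1 θ' hθs).1 a).continuous
    have hN0' : ∀ x, 0 ≤ NF F G θ' x := fun x => Finset.sum_nonneg fun a _ => q2_nn _
    obtain ⟨X, hX⟩ : ∃ X, X = ∫ x in {x | b x ≤ R}, NF F G θ' x * vol g x := ⟨_, rfl⟩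
    obtain ⟨Y, hY⟩ : ∃ Y, Y = ∫ x in K0, q2 (θ' x) * vol g x := ⟨_, rfl⟩
    obtain ⟨PP, hPP⟩ : ∃ PP, PP = ∫ x, q2 (Pc x) * vol g x := ⟨_, rfl⟩
    have hNi : IntegrableOn (fun x => NF F G θ' x * vol g x) {x | b x ≤ R} :=
      (hNc.mul hvolc).continuousOn.integrableOn_compact hK
    have hX0 : 0 ≤ X := by
      rw [hX]
      exact integral_nonneg fun x => mul_nonneg (hN0' x) (hvol0 x).le
    have e1 : X = ∫ x in {x | b x ≤ R}, NF F G θ' x * wt g f x := by
      rw [hX]
      refine setIntegral_congr_fun hK.measurableSet fun x hx => ?_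
      rw [hwR x hx]
    have e2 : ∫ x, q2 (Pc x) * wt g f x ≤ PP := by
      rw [hPP]
      exact integral_mono hPw hPv fun x => mul_le_mul_of_nonneg_left (hwv x) (q2_nn _)
    have e3 : (m + 1) * ε * ∫ x, q2 (Et x) * wt g f x ≤ 1 := by
      have h7 : (0 : ℝ) ≤ (m + 1) * ε := by positivity
      exact (mul_le_mul_of_nonneg_left hET h7).trans hεT
    have hd : IntegrableOn (fun x => q2 (θ' x - Et x) * vol g x) {x | b x ≤ R} :=
      L2t_int (L2t_sub (L2t_ct hθs.continuous) hEL) hvolc hK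
    have hd0 : ∀ S : Set (E n), S ⊆ {x | b x ≤ R} →
        ∫ x in S, q2 (θ' x - Et x) * vol g x ≤ κ' := by
      intro S hS
      refine le_trans ?_ hθ1
      exact setIntegral_mono_set hd
        (Filter.Eventually.of_forall fun x => mul_nonneg (q2_nn _) (hvol0 x).le)
        (Filter.Eventually.of_forall hS)
    have hK0K : K0 ⊆ {x | b x ≤ R} := hK0Q.trans (subset_closure.trans hQK)
    have e4 : ∫ x in K0, q2 (Et x) * wt g f x ≤ 2 * Y + 2 * κ' := by
      have hi1 : IntegrableOn (fun x => q2 (θ' x - Et x) * vol g x) K0 := hd.mono_set hK0K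
      have hi2 : IntegrableOn (fun x => q2 (θ' x) * vol g x) K0 :=
        L2t_int (L2t_ct hθs.continuous) hvolc hK0
      calc ∫ x in K0, q2 (Et x) * wt g f x
          ≤ ∫ x in K0, (2 * (q2 (θ' x) * vol g x) + 2 * (q2 (θ' x - Et x) * vol g x)) := by
            refine setIntegral_mono_on hEi.integrableOn
              ((hi2.const_mul 2).add (hi1.const_mul 2)) hK0.measurableSet fun x _ => ?_
            have h7 := q2_add hNrm (θ' x) (Et x - θ' x)
            rw [add_sub_cancel, q2_neg (Et x) (θ' x)] at h7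
            calc q2 (Et x) * wt g f x
                ≤ q2 (Et x) * vol g x := mul_le_mul_of_nonneg_left (hwv x) (q2_nn _)
              _ ≤ (2 * q2 (θ' x) + 2 * q2 (θ' x - Et x)) * vol g x :=
                  mul_le_mul_of_nonneg_right h7 (hvol0 x).le
              _ = _ := by ring
        _ = 2 * Y + 2 * ∫ x in K0, q2 (θ' x - Et x) * vol g x := by
            rw [integral_add (hi2.const_mul 2) (hi1.const_mul 2), integral_const_mul,
              integral_const_mul, hY]
        _ ≤ _ := by linarith [hd0 K0 hK0K]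
    have e5 : ∀ k, (∫ x in S k, θ' x (I k)) ^ 2 ≤ D * κ' := by
      intro k
      have hSk : S k ⊆ closure Q := (hSQ k).trans subset_closure
      have h7 : ∫ x in S k, (θ' x - Et x) (I k) = ∫ x in S k, θ' x (I k) := by
        have h8 : ∫ x in S k, (θ' x - Et x) (I k) =
            (∫ x in S k, θ' x (I k)) - ∫ x in S k, Et x (I k) :=
          integral_sub (L2t_comp (L2t_ct hθs.continuous) (I k) hQc hSk)
            (L2t_comp hEL (I k) hQc hSk)
        rw [h8, hmean k, sub_zero]
      rw [← h7]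
      refine (mean_sq (L2t_sub (L2t_ct hθs.continuous) hEL) (I k) hQc hSk hvolc ha).trans ?_
      rw [← hD]
      exact mul_le_mul_of_nonneg_left (hd0 _ hQK) hD0
    have e6 : Y ≤ 1 / (4 * (Λ + 1)) * X + C * (N * (D * κ')) := by
      rw [hY]
      refine (hCu θ' hθs).trans ?_
      refine add_le_add (mul_le_mul_of_nonneg_left ?_ (by positivity))
        (mul_le_mul_of_nonneg_left ?_ hC0)
      · rw [hX]
        exact setIntegral_mono_set hNi
          (Filter.Eventually.of_forall fun x => mul_nonneg (hN0' x) (hvol0 x).le)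
          (Filter.Eventually.of_forall (subset_closure.trans hQK))
      · calc ∑ k, (∫ x in S k, θ' x (I k)) ^ 2 ≤ ∑ _k : Fin N, D * κ' :=
              Finset.sum_le_sum fun k _ => e5 k
          _ = N * (D * κ') := by
              rw [Finset.sum_const, Finset.card_univ, Fintype.card_fin, nsmul_eq_mul]
    have e7 : Λ * (2 * Y + 2 * κ') ≤ X / 2 + κ' * (Z - 1) := by
      have h7 : Λ * (2 * Y + 2 * κ') ≤
          Λ * (2 * (1 / (4 * (Λ + 1)) * X + C * (N * (D * κ'))) + 2 * κ') :=
        mul_le_mul_of_nonneg_left (by linarith) hΛ0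
      have h8 : Λ * (2 * (1 / (4 * (Λ + 1)) * X)) ≤ X / 2 := by
        have h9 : Λ / (Λ + 1) ≤ 1 := by
          rw [div_le_one (by linarith)]
          linarith
        calc Λ * (2 * (1 / (4 * (Λ + 1)) * X)) = (Λ / (Λ + 1)) * (X / 2) := by
              field_simp
              ring
          _ ≤ 1 * (X / 2) := mul_le_mul_of_nonneg_right h9 (by linarith)
          _ = X / 2 := one_mul _
      rw [hZ]
      linarith
    have e8 : Λ * ∫ x in K0, q2 (Et x) * wt g f x ≤ X / 2 + κ' * (Z - 1) :=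
      (mul_le_mul_of_nonneg_left e4 hΛ0).trans e7
    rw [← hX, ← hPP]
    rw [← e1] at hθ2
    linarith

end Pool.Agent.Helper47.DSH
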